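import Pool.Agent.H44.FK4

open MeasureTheory Pool.Agent.H44.FK

theorem Pool.Agent.Results.MP_4ab6d1_pr.Q1False.result :
    ∃ (V : Type) (G : SimpleGraph V), Infinite V ∧ G.Connected ∧
      (∀ v, (G.neighborSet v).Finite) ∧ Hyperbolic G ∧ pc G = 0 ∧
      ∀ p : ℝ, 0 < p → p < 1 → (∃ φ, IsFreeFK G p φ) ∧ ∀ φ, IsFreeFK G p φ →
        ∀ᵐ ω ∂φ, ∃ C : (openG G ω).ConnectedComponent,
          C.supp.Infinite ∧ ¬ Anchored C.toSimpleGraph :=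
  ⟨VV, GG, inferInstance, GG_conn, GG_lf, GG_hyp, pc_zero, fun _ h0 h1 =>
    ⟨free_ex h0 h1, fun _ hφ => main_ae h0 h1 hφ⟩⟩
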